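import Pool.Agent.Q29.CF.Normal

/-!
# The word problem of `Mon⟨a, b, c | (b aⁿ c)² = 1⟩` is context-free
-/

namespace Q29.CF

open Ltr Symbol

/-- Nonterminals. -/
inductive NTm
  | S | D | E | D' | E'
deriving DecidableEq

open NTm

/-- terminal -/
abbrev tt (x : Ltr) : Symbol (Option Ltr) NTm := .terminal (some x)

/-- nonterminal -/
abbrev nn (A : NTm) : Symbol (Option Ltr) NTm := .nonterminal A

/-- The rules of the grammar. -/
def rls : Finset (ContextFreeRule (Option Ltr) NTm) := {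
    ⟨S, [nn D, .terminal none, nn D']⟩,
    ⟨S, [nn D, tt a, nn S, tt a, nn D']⟩,
    ⟨S, [nn D, tt b, nn S, tt b, nn D']⟩,
    ⟨S, [nn D, tt c, nn S, tt c, nn D']⟩,
    ⟨D, []⟩,
    ⟨D, [tt b, nn D, nn E, nn D, tt c, nn D]⟩,
    ⟨E, [tt a, nn D, nn E, nn D, tt a]⟩,
    ⟨E, [tt c, nn D, tt b]⟩,
    ⟨D', []⟩,
    ⟨D', [nn D', tt c, nn D', nn E', nn D', tt b]⟩,
    ⟨E', [tt a, nn D', nn E', nn D', tt a]⟩,
    ⟨E', [tt b, nn D', tt c]⟩}

/-- The grammar. -/
def G : ContextFreeGrammar (Option Ltr) where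
  NT := NTm
  initial := S
  rules := rls

/-- Derivability. -/
def Der (x y : List (Symbol (Option Ltr) NTm)) : Prop := G.Derives x y

/-! ### Completeness -/

lemma derives_flatten {l : List (Symbol (Option Ltr) NTm)}
    {ws : List (List (Symbol (Option Ltr) NTm))}
    (h : List.Forall₂ (fun s w => Der [s] w) l ws) : Der l ws.flatten := by
  induction h with
  | nil => exact ContextFreeGrammar.Derives.refl _
  | @cons s w l ws hs _ ih =>
    rw [List.flatten_cons]
    have h1 : Der ([s] ++ l) (w ++ l) := ContextFreeGrammar.Derives.append_right hs l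
    have h2 : Der (w ++ l) (w ++ ws.flatten) := ContextFreeGrammar.Derives.append_left ih w
    exact ContextFreeGrammar.Derives.trans h1 h2

lemma derives_rule {A : NTm} {l : List (Symbol (Option Ltr) NTm)}
    {ws : List (List (Symbol (Option Ltr) NTm))}
    (hr : (⟨A, l⟩ : ContextFreeRule (Option Ltr) NTm) ∈ rls)
    (h : List.Forall₂ (fun s w => Der [s] w) l ws) : Der [nn A] ws.flatten := by
  have h1 : G.Produces [nn A] l := by
    refine ⟨⟨A, l⟩, hr, ?_⟩
    exact ContextFreeRule.Rewrites.input_output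
  exact ContextFreeGrammar.Produces.trans_derives h1 (derives_flatten h)

/-- words derivable from `D` (with reversal derivable from `D'`) -/
def IsD (α : List Ltr) : Prop :=
  Der [nn D] (α.map tt) ∧ Der [nn D'] (α.reverse.map tt)

/-- words derivable from `E` (with reversal derivable from `E'`) -/
def IsE (α : List Ltr) : Prop :=
  Der [nn E] (α.map tt) ∧ Der [nn E'] (α.reverse.map tt)

/-- sentential words derivable from `S` -/
def IsS (u v : List Ltr) : Prop :=
  Der [nn S] (u.map tt ++ .terminal none :: v.reverse.map tt)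

lemma rfl_t (s : Symbol (Option Ltr) NTm) : Der [s] [s] := ContextFreeGrammar.Derives.refl _

lemma isD_nil : IsD [] := by
  constructor
  · exact derives_rule (ws := []) (l := []) (by simp [rls]) List.Forall₂.nil
  · exact derives_rule (ws := []) (l := []) (by simp [rls]) List.Forall₂.nil

lemma isD_step {α e δ γ : List Ltr} (hα : IsD α) (he : IsE e) (hδ : IsD δ) (hγ : IsD γ) :
    IsD (b :: (α ++ (e ++ (δ ++ c :: γ)))) := by
  constructor
  · have := derives_rule (A := D) (l := [tt b, nn D, nn E, nn D, tt c, nn D])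
      (ws := [[tt b], α.map tt, e.map tt, δ.map tt, [tt c], γ.map tt]) (by simp [rls])
      (.cons (rfl_t _) (.cons hα.1 (.cons he.1 (.cons hδ.1 (.cons (rfl_t _) (.cons hγ.1 .nil))))))
    simpa using this
  · have := derives_rule (A := D') (l := [nn D', tt c, nn D', nn E', nn D', tt b])
      (ws := [γ.reverse.map tt, [tt c], δ.reverse.map tt, e.reverse.map tt, α.reverse.map tt,
        [tt b]]) (by simp [rls])
      (.cons hγ.2 (.cons (rfl_t _) (.cons hδ.2 (.cons he.2 (.cons hα.2 (.cons (rfl_t _) .nil))))))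
    simpa using this

lemma isE_step {α e δ : List Ltr} (hα : IsD α) (he : IsE e) (hδ : IsD δ) :
    IsE (a :: (α ++ (e ++ (δ ++ [a])))) := by
  constructor
  · have := derives_rule (A := E) (l := [tt a, nn D, nn E, nn D, tt a])
      (ws := [[tt a], α.map tt, e.map tt, δ.map tt, [tt a]]) (by simp [rls])
      (.cons (rfl_t _) (.cons hα.1 (.cons he.1 (.cons hδ.1 (.cons (rfl_t _) .nil)))))
    simpa using this
  · have := derives_rule (A := E') (l := [tt a, nn D', nn E', nn D', tt a])
      (ws := [[tt a], δ.reverse.map tt, e.reverse.map tt, α.reverse.map tt, [tt a]]) (by simp [rls])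
      (.cons (rfl_t _) (.cons hδ.2 (.cons he.2 (.cons hα.2 (.cons (rfl_t _) .nil)))))
    simpa using this

lemma isE_base {α : List Ltr} (hα : IsD α) : IsE (c :: (α ++ [b])) := by
  constructor
  · have := derives_rule (A := E) (l := [tt c, nn D, tt b])
      (ws := [[tt c], α.map tt, [tt b]]) (by simp [rls])
      (.cons (rfl_t _) (.cons hα.1 (.cons (rfl_t _) .nil)))
    simpa using this
  · have := derives_rule (A := E') (l := [tt b, nn D', tt c])
      (ws := [[tt b], α.reverse.map tt, [tt c]]) (by simp [rls])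
      (.cons (rfl_t _) (.cons hα.2 (.cons (rfl_t _) .nil)))
    simpa using this

lemma isS_base {α β : List Ltr} (hα : IsD α) (hβ : IsD β) : IsS α β := by
  have := derives_rule (A := S) (l := [nn D, .terminal none, nn D'])
      (ws := [α.map tt, [.terminal none], β.reverse.map tt]) (by simp [rls])
      (.cons hα.1 (.cons (rfl_t _) (.cons hβ.2 .nil)))
  simpa [IsS] using this

lemma isS_step (x : Ltr) {α β u v : List Ltr} (hα : IsD α) (hβ : IsD β) (h : IsS u v) :
    IsS (α ++ x :: u) (β ++ x :: v) := by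
  have := derives_rule (A := S) (l := [nn D, tt x, nn S, tt x, nn D'])
      (ws := [α.map tt, [tt x], u.map tt ++ .terminal none :: v.reverse.map tt, [tt x],
        β.reverse.map tt]) (by cases x <;> simp [rls])
      (.cons hα.1 (.cons (rfl_t _) (.cons h (.cons (rfl_t _) (.cons hβ.2 .nil)))))
  simpa [IsS] using this

/-- `u` is obtained from `w` by inserting words of type `D`. -/
inductive Rel : List Ltr → List Ltr → Prop
  | nil {α : List Ltr} (h : IsD α) : Rel [] α
  | cons {α : List Ltr} (x : Ltr) {w u : List Ltr} (hα : IsD α) (h : Rel w u) :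
      Rel (x :: w) (α ++ x :: u)

lemma Rel.inv {x : Ltr} {w v : List Ltr} (h : Rel (x :: w) v) :
    ∃ α u, IsD α ∧ v = α ++ x :: u ∧ Rel w u := by
  cases h with
  | cons x hα h => exact ⟨_, _, hα, rfl, h⟩

lemma Rel.isS {w u v : List Ltr} (h1 : Rel w u) (h2 : Rel w v) : IsS u v := by
  induction h1 generalizing v with
  | nil hα =>
    cases h2 with
    | nil hβ => exact isS_base hα hβ
  | cons x hα h ih =>
    obtain ⟨β, v', hβ, rfl, h2'⟩ := h2.inv
    exact isS_step x hα hβ (ih h2')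

lemma Rel.prepend {y v p : List Ltr} (h : Rel y v) (hp : ∀ γ, IsD γ → IsD (p ++ γ)) :
    Rel y (p ++ v) := by
  cases h with
  | nil hα => exact Rel.nil (hp _ hα)
  | cons x hα h =>
    rw [← List.append_assoc]
    exact Rel.cons x (hp _ hα) h

lemma Rel.extract {n : ℕ} {y v : List Ltr}
    (h : Rel (List.replicate n a ++ c :: b :: (List.replicate n a ++ y)) v) :
    ∃ α e v', IsD α ∧ IsE e ∧ v = α ++ (e ++ v') ∧ Rel y v' := by
  induction n generalizing y v with
  | zero =>
    simp only [List.replicate_zero, List.nil_append] at h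
    obtain ⟨α, u1, hα, rfl, h1⟩ := h.inv
    obtain ⟨β, u2, hβ, rfl, h2⟩ := h1.inv
    exact ⟨α, c :: (β ++ [b]), u2, hα, isE_base hβ, by simp, h2⟩
  | succ n ih =>
    have e1 : List.replicate (n + 1) a ++ c :: b :: (List.replicate (n + 1) a ++ y) =
        a :: (List.replicate n a ++ c :: b :: (List.replicate n a ++ (a :: y))) := by
      rw [List.replicate_succ, List.cons_append, ← List.replicate_succ, List.replicate_succ']
      simp
    rw [e1] at h
    obtain ⟨α, u1, hα, rfl, h1⟩ := h.inv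
    obtain ⟨β, e, v1, hβ, he, rfl, h2⟩ := ih h1
    obtain ⟨δ, v2, hδ, rfl, h3⟩ := h2.inv
    exact ⟨α, a :: (β ++ (e ++ (δ ++ [a]))), v2, hα, isE_step hβ he hδ, by simp, h3⟩

lemma rel_nf (u : List Ltr) : Rel (nf u) u := by
  induction u with
  | nil => exact Rel.nil isD_nil
  | cons x u ih =>
    cases x with
    | a => exact Rel.cons (α := []) a isD_nil ih
    | c => exact Rel.cons (α := []) c isD_nil ih
    | b =>
      rw [nf]
      by_cases h : ∃ y n, nf u = redex n y
      · obtain ⟨y, n, h⟩ := h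
        rw [h, bAct_redex]
        rw [h, redex] at ih
        obtain ⟨α, e, v', hα, he, rfl, h2⟩ := ih.extract
        obtain ⟨δ, v2, hδ, rfl, h3⟩ := h2.inv
        have := h3.prepend (p := b :: (α ++ (e ++ (δ ++ [c])))) (by
          intro γ hγ
          have := isD_step hα he hδ hγ
          simpa using this)
        simpa using this
      · have hw' : ∀ n y, nf u ≠ redex n y := fun n y e => h ⟨y, n, e⟩
        rw [bAct_of_not hw']
        exact Rel.cons (α := []) b isD_nil ih

lemma isS_of_val_eq {u v : List Ltr} (h : val u = val v) : IsS u v := by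
  have h1 := rel_nf u
  have h2 := rel_nf v
  rw [← nf_eq_of_val_eq h] at h2
  exact h1.isS h2

/-! ### Soundness -/

/-- interpretation of the nonterminals -/
def I0 : NTm → Language (Option Ltr)
  | S => wordProblem gen
  | D => {x | ∃ u : List Ltr, x = u.map some ∧ val u = 1}
  | E => {x | ∃ (u : List Ltr) (n : ℕ), x = u.map some ∧
      val u = gen a ^ n * gen c * gen b * gen a ^ n}
  | D' => {x | ∃ u : List Ltr, x = u.reverse.map some ∧ val u = 1}
  | E' => {x | ∃ (u : List Ltr) (n : ℕ), x = u.reverse.map some ∧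
      val u = gen a ^ n * gen c * gen b * gen a ^ n}

/-- interpretation of symbols -/
def I1 : Symbol (Option Ltr) NTm → Language (Option Ltr)
  | .terminal x => {[x]}
  | .nonterminal A => I0 A

lemma mem_cons_iff (s : Symbol (Option Ltr) NTm) (l : List (Symbol (Option Ltr) NTm))
    (x : List (Option Ltr)) : x ∈ ((s :: l).map I1).prod ↔
      ∃ y ∈ I1 s, ∃ z ∈ (l.map I1).prod, y ++ z = x := by
  rw [List.map_cons, List.prod_cons, Language.mem_mul]

lemma mem_nil_iff (x : List (Option Ltr)) : x ∈ (([] : List (Symbol (Option Ltr) NTm)).map I1).prod ↔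
    x = [] := by
  simp

lemma gen_rel (n : ℕ) : gen b * gen a ^ n * gen c * (gen b * gen a ^ n * gen c) = 1 := by
  have := val_rel n
  rwa [val, prod_uw] at this

/-- Soundness of a rule. -/
def Sound (l : List (Symbol (Option Ltr) NTm)) (A : NTm) : Prop :=
  ∀ x : List (Option Ltr), x ∈ (l.map I1).prod → x ∈ I0 A

lemma sound_S0 : Sound [nn D, .terminal none, nn D'] S := by
  intro x hx
  simp only [mem_cons_iff, mem_nil_iff] at hx
  obtain ⟨_, ⟨α, rfl, hα⟩, _, ⟨_, h2, _, ⟨_, ⟨β, rfl, hβ⟩, _, rfl, rfl⟩, rfl⟩, rfl⟩ := hx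
  obtain rfl : _ = [none] := h2
  refine ⟨α, β, ?_, by simp⟩
  change val α = val β
  rw [hα, hβ]

lemma sound_S1 (l : Ltr) :
    Sound [nn D, tt l, nn S, tt l, nn D'] S := by
  intro x hx
  simp only [mem_cons_iff, mem_nil_iff] at hx
  obtain ⟨_, ⟨α, rfl, hα⟩, _, ⟨_, h2, _, ⟨_, ⟨u, v, huv, rfl⟩, _, ⟨_, h4, _,
    ⟨_, ⟨β, rfl, hβ⟩, _, rfl, rfl⟩, rfl⟩, rfl⟩, rfl⟩, rfl⟩ := hx
  obtain rfl : _ = [some l] := h2
  obtain rfl : _ = [some l] := h4
  refine ⟨α ++ l :: u, β ++ l :: v, ?_, by simp⟩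
  change val (α ++ l :: u) = val (β ++ l :: v)
  change val u = val v at huv
  rw [val_append, val_append, val_cons, val_cons, hα, hβ, huv]

lemma sound_D0 : Sound [] D := by
  intro x hx
  simp only [mem_nil_iff] at hx
  subst hx
  exact ⟨[], rfl, rfl⟩

lemma sound_D'0 : Sound [] D' := by
  intro x hx
  simp only [mem_nil_iff] at hx
  subst hx
  exact ⟨[], rfl, rfl⟩

lemma val_D {α e δ γ : List Ltr} {n : ℕ} (hα : val α = 1)
    (he : val e = gen a ^ n * gen c * gen b * gen a ^ n) (hδ : val δ = 1) (hγ : val γ = 1) :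
    val (b :: (α ++ (e ++ (δ ++ c :: γ)))) = 1 := by
  rw [val_cons, val_append, val_append, val_append, val_cons, hα, he, hδ, hγ, one_mul, one_mul,
    mul_one]
  have := gen_rel n
  simpa only [mul_assoc] using this

lemma val_E {α e δ : List Ltr} {n : ℕ} (hα : val α = 1)
    (he : val e = gen a ^ n * gen c * gen b * gen a ^ n) (hδ : val δ = 1) :
    val (a :: (α ++ (e ++ (δ ++ [a])))) = gen a ^ (n + 1) * gen c * gen b * gen a ^ (n + 1) := by
  rw [val_cons, val_append, val_append, val_append, val_cons, val_nil, hα, he, hδ, one_mul,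
    one_mul, mul_one, pow_succ' (gen a) n]
  have : gen a * gen a ^ n * gen c * gen b * (gen a * gen a ^ n) =
      gen a * gen a ^ n * gen c * gen b * (gen a ^ n * gen a) := by
    rw [← pow_succ', ← pow_succ]
  rw [this]
  simp only [mul_assoc]

lemma val_E0 {α : List Ltr} (hα : val α = 1) :
    val (c :: (α ++ [b])) = gen a ^ 0 * gen c * gen b * gen a ^ 0 := by
  rw [val_cons, val_append, val_cons, val_nil, hα]
  simp

lemma sound_D1 :
    Sound [tt b, nn D, nn E, nn D, tt c, nn D] D := by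
  intro x hx
  simp only [mem_cons_iff, mem_nil_iff] at hx
  obtain ⟨_, h1, _, ⟨_, ⟨α, rfl, hα⟩, _, ⟨_, ⟨e, n, rfl, he⟩, _, ⟨_, ⟨δ, rfl, hδ⟩, _, ⟨_, h5, _,
    ⟨_, ⟨γ, rfl, hγ⟩, _, rfl, rfl⟩, rfl⟩, rfl⟩, rfl⟩, rfl⟩, rfl⟩ := hx
  obtain rfl : _ = [some b] := h1
  obtain rfl : _ = [some c] := h5
  exact ⟨b :: (α ++ (e ++ (δ ++ c :: γ))), by simp, val_D hα he hδ hγ⟩

lemma sound_D'1 :
    Sound [nn D', tt c, nn D', nn E', nn D', tt b] D' := by
  intro x hx
  simp only [mem_cons_iff, mem_nil_iff] at hx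
  obtain ⟨_, ⟨γ, rfl, hγ⟩, _, ⟨_, h5, _, ⟨_, ⟨δ, rfl, hδ⟩, _, ⟨_, ⟨e, n, rfl, he⟩, _,
    ⟨_, ⟨α, rfl, hα⟩, _, ⟨_, h1, _, rfl, rfl⟩, rfl⟩, rfl⟩, rfl⟩, rfl⟩, rfl⟩ := hx
  obtain rfl : _ = [some b] := h1
  obtain rfl : _ = [some c] := h5
  exact ⟨b :: (α ++ (e ++ (δ ++ c :: γ))), by simp, val_D hα he hδ hγ⟩

lemma sound_E1 :
    Sound [tt a, nn D, nn E, nn D, tt a] E := by
  intro x hx
  simp only [mem_cons_iff, mem_nil_iff] at hx
  obtain ⟨_, h1, _, ⟨_, ⟨α, rfl, hα⟩, _, ⟨_, ⟨e, n, rfl, he⟩, _, ⟨_, ⟨δ, rfl, hδ⟩, _, ⟨_, h5, _,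
    rfl, rfl⟩, rfl⟩, rfl⟩, rfl⟩, rfl⟩ := hx
  obtain rfl : _ = [some a] := h1
  obtain rfl : _ = [some a] := h5
  exact ⟨a :: (α ++ (e ++ (δ ++ [a]))), n + 1, by simp, val_E hα he hδ⟩

lemma sound_E'1 :
    Sound [tt a, nn D', nn E', nn D', tt a] E' := by
  intro x hx
  simp only [mem_cons_iff, mem_nil_iff] at hx
  obtain ⟨_, h1, _, ⟨_, ⟨δ, rfl, hδ⟩, _, ⟨_, ⟨e, n, rfl, he⟩, _, ⟨_, ⟨α, rfl, hα⟩, _, ⟨_, h5, _,
    rfl, rfl⟩, rfl⟩, rfl⟩, rfl⟩, rfl⟩ := hx
  obtain rfl : _ = [some a] := h1
  obtain rfl : _ = [some a] := h5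
  exact ⟨a :: (α ++ (e ++ (δ ++ [a]))), n + 1, by simp, val_E hα he hδ⟩

lemma sound_E0 :
    Sound [tt c, nn D, tt b] E := by
  intro x hx
  simp only [mem_cons_iff, mem_nil_iff] at hx
  obtain ⟨_, h1, _, ⟨_, ⟨α, rfl, hα⟩, _, ⟨_, h5, _, rfl, rfl⟩, rfl⟩, rfl⟩ := hx
  obtain rfl : _ = [some c] := h1
  obtain rfl : _ = [some b] := h5
  exact ⟨c :: (α ++ [b]), 0, by simp, val_E0 hα⟩

lemma sound_E'0 :
    Sound [tt b, nn D', tt c] E' := by
  intro x hx
  simp only [mem_cons_iff, mem_nil_iff] at hx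
  obtain ⟨_, h1, _, ⟨_, ⟨α, rfl, hα⟩, _, ⟨_, h5, _, rfl, rfl⟩, rfl⟩, rfl⟩ := hx
  obtain rfl : _ = [some b] := h1
  obtain rfl : _ = [some c] := h5
  exact ⟨c :: (α ++ [b]), 0, by simp, val_E0 hα⟩

lemma rule_sound (r : ContextFreeRule (Option Ltr) NTm) (hr : r ∈ rls) :
    Sound r.output r.input := by
  simp only [rls, Finset.mem_insert, Finset.mem_singleton] at hr
  rcases hr with rfl | rfl | rfl | rfl | rfl | rfl | rfl | rfl | rfl | rfl | rfl | rfl
  · exact sound_S0
  · exact sound_S1 a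
  · exact sound_S1 b
  · exact sound_S1 c
  · exact sound_D0
  · exact sound_D1
  · exact sound_E1
  · exact sound_E0
  · exact sound_D'0
  · exact sound_D'1
  · exact sound_E'1
  · exact sound_E'0

lemma produces_sound {x y : List (Symbol (Option Ltr) NTm)} (h : G.Produces x y)
    (w : List (Option Ltr)) (hw : w ∈ (y.map I1).prod) : w ∈ (x.map I1).prod := by
  obtain ⟨r, hr, hxy⟩ := h
  have hxy' : ContextFreeRule.Rewrites (T := Option Ltr) (N := NTm) r x y := hxy
  obtain ⟨p, q, rfl, rfl⟩ := hxy'.exists_parts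
  have := rule_sound r hr
  rw [List.map_append, List.prod_append, List.map_append, List.prod_append] at hw ⊢
  rw [Language.mem_mul] at hw ⊢
  obtain ⟨w1, h1, w2, h2, rfl⟩ := hw
  refine ⟨w1, ?_, w2, h2, rfl⟩
  rw [Language.mem_mul] at h1 ⊢
  obtain ⟨w3, h3, w4, h4, rfl⟩ := h1
  refine ⟨w3, h3, w4, ?_, rfl⟩
  have h5 := this w4 h4
  simpa [I1] using h5

lemma derives_sound {x y : List (Symbol (Option Ltr) NTm)} (h : G.Derives x y)
    (w : List (Option Ltr)) (hw : w ∈ (y.map I1).prod) : w ∈ (x.map I1).prod := by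
  have h' : Relation.ReflTransGen (fun x y : List (Symbol (Option Ltr) NTm) => G.Produces x y) x y :=
    h
  clear h
  induction h' with
  | refl => exact hw
  | tail _ h2 ih => exact ih (produces_sound h2 w hw)

lemma mem_terminals (w : List (Option Ltr)) :
    w ∈ ((w.map (Symbol.terminal (N := NTm))).map I1).prod := by
  induction w with
  | nil => simp
  | cons x w ih =>
    rw [List.map_cons, mem_cons_iff]
    exact ⟨[x], rfl, w, ih, rfl⟩

theorem language_G : G.language = wordProblem gen := by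
  ext w
  rw [ContextFreeGrammar.mem_language_iff]
  constructor
  · intro hw
    have := derives_sound hw w (mem_terminals w)
    simpa [I1, I0, G] using this
  · rintro ⟨u, v, huv, rfl⟩
    have h1 := isS_of_val_eq (u := u) (v := v) huv
    have e : (u.map some ++ none :: v.reverse.map some).map
        (Symbol.terminal (T := Option Ltr) (N := NTm)) =
        u.map tt ++ .terminal none :: v.reverse.map tt := by
      simp only [List.map_append, List.map_cons, List.map_map]
      rfl
    change Der [nn S] ((u.map some ++ none :: v.reverse.map some).map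
        (Symbol.terminal (T := Option Ltr) (N := NTm)))
    rw [e]
    exact h1

/-- The monoid `Mon⟨a, b, c | (b aⁿ c)² = 1⟩` has context-free word problem. -/
theorem hasContextFreeWordProblem : HasContextFreeWordProblem MM := by
  refine ⟨Ltr, inferInstance, gen, ?_, G, language_G⟩
  exact PresentedMonoid.closure_range_of rels

end Q29.CF
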