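import Mathlib

/-!
# A monoid with context-free word problem whose group of units is not finitely generated

`M = Mon⟨a, b, c | (b aⁿ c)² = 1 (n ≥ 0)⟩`.  This file: the monoid and its group of units.
-/

namespace Q29.CF

/-- The word problem `{u # v^rev : u = v in M}` of a monoid `M` with respect to a family
`g : A → M` of generators; the letter `#` is `none`. -/
def wordProblem {A M : Type} [Monoid M] (g : A → M) : Language (Option A) :=
  {x | ∃ u v : List A, (u.map g).prod = (v.map g).prod ∧
    x = u.map some ++ none :: v.reverse.map some}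

/-- `M` has context-free word problem (with respect to some finite generating set). -/
def HasContextFreeWordProblem (M : Type) [Monoid M] : Prop :=
  ∃ (A : Type) (_ : Fintype A) (g : A → M), Submonoid.closure (Set.range g) = ⊤ ∧
    (wordProblem g).IsContextFree

/-- The letters `a, b, c`. -/
inductive Ltr
  | a | b | c
deriving DecidableEq

open Ltr

instance : Fintype Ltr := ⟨{a, b, c}, by intro x; cases x <;> simp⟩

/-- The word `b aⁿ c`. -/
def uw (n : ℕ) : List Ltr := b :: (List.replicate n a ++ [c])

/-- The defining relations `(b aⁿ c)² = 1`. -/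
def rels : FreeMonoid Ltr → FreeMonoid Ltr → Prop :=
  fun x y => ∃ n, x = FreeMonoid.ofList (uw n ++ uw n) ∧ y = 1

/-- The monoid `Mon⟨a, b, c | (b aⁿ c)² = 1⟩`. -/
abbrev MM : Type := PresentedMonoid rels

/-- The generators. -/
def gen : Ltr → MM := PresentedMonoid.of rels

/-- The value of a word. -/
def val (u : List Ltr) : MM := (u.map gen).prod

lemma val_nil : val [] = 1 := rfl

lemma val_cons (x : Ltr) (u : List Ltr) : val (x :: u) = gen x * val u := by simp [val]

lemma val_append (u v : List Ltr) : val (u ++ v) = val u * val v := by simp [val]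

lemma val_eq_mk (u : List Ltr) : val u = PresentedMonoid.mk rels (FreeMonoid.ofList u) := by
  induction u with
  | nil => rfl
  | cons x u ih =>
    rw [val_cons, ih, FreeMonoid.ofList_cons, map_mul]
    rfl

lemma exists_val (m : MM) : ∃ u, val u = m := by
  obtain ⟨x, rfl⟩ := PresentedMonoid.surjective_mk m
  exact ⟨FreeMonoid.toList x, by rw [val_eq_mk]; rfl⟩

lemma val_rel (n : ℕ) : val (uw n) * val (uw n) = 1 := by
  rw [← val_append, val_eq_mk, PresentedMonoid.mk_eq_mk_of_rel (y := 1) ⟨n, rfl, rfl⟩, map_one]

lemma prod_uw {N : Type*} [Monoid N] (f : Ltr → N) (n : ℕ) :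
    ((uw n).map f).prod = f b * f a ^ n * f c := by
  simp [uw, mul_assoc]

/-- Homomorphisms out of `MM`. -/
def liftM {N : Type*} [Monoid N] (f : Ltr → N)
    (h : ∀ n, (f b * f a ^ n * f c) * (f b * f a ^ n * f c) = 1) : MM →* N :=
  PresentedMonoid.lift f (by
    rintro _ _ ⟨n, rfl, rfl⟩
    rw [FreeMonoid.lift_ofList, List.map_append, List.prod_append, prod_uw, h, map_one])

lemma liftM_val {N : Type*} [Monoid N] (f : Ltr → N)
    (h : ∀ n, (f b * f a ^ n * f c) * (f b * f a ^ n * f c) = 1) (u : List Ltr) :
    liftM f h (val u) = (u.map f).prod := by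
  rw [val, map_list_prod, List.map_map]
  rfl

/-! ### Transformations of streams -/

/-- Streams of natural numbers. -/
abbrev X : Type := Stream' ℕ

/-- The stack machine: `c` pushes `0`, `a` increments the top entry, `b` pops the top entry `n` and
applies `U n` to the rest. -/
def fX (U : ℕ → X → X) : Ltr → Function.End X
  | a => fun ξ => Stream'.cons (ξ.head + 1) ξ.tail
  | b => fun ξ => U ξ.head ξ.tail
  | c => fun ξ => Stream'.cons 0 ξ

lemma fX_a_pow (U : ℕ → X → X) (n k : ℕ) (ξ : X) :
    ((fX U a) ^ n : Function.End X) (Stream'.cons k ξ) = Stream'.cons (k + n) ξ := by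
  induction n generalizing k with
  | zero => rfl
  | succ n ih =>
    rw [pow_succ]
    change ((fX U a) ^ n : Function.End X) (fX U a (Stream'.cons k ξ)) = _
    have : fX U a (Stream'.cons k ξ) = Stream'.cons (k + 1) ξ := rfl
    rw [this, ih]
    congr 1
    omega

lemma fX_uw (U : ℕ → X → X) (n : ℕ) (ξ : X) :
    ((fX U b * fX U a ^ n * fX U c : Function.End X)) ξ = U n ξ := by
  change fX U b (((fX U a) ^ n : Function.End X) (Stream'.cons 0 ξ)) = _
  rw [fX_a_pow, zero_add]
  rfl

lemma fX_rel (U : ℕ → X → X) (hU : ∀ n ξ, U n (U n ξ) = ξ) (n : ℕ) :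
    (fX U b * fX U a ^ n * fX U c) * (fX U b * fX U a ^ n * fX U c) = (1 : Function.End X) := by
  funext ξ
  change (fX U b * fX U a ^ n * fX U c : Function.End X)
    ((fX U b * fX U a ^ n * fX U c : Function.End X) ξ) = ξ
  rw [fX_uw, fX_uw, hU]

/-- The representation of `MM` by transformations of `X` given by involutions `U n`. -/
def rep (U : ℕ → X → X) (hU : ∀ n ξ, U n (U n ξ) = ξ) : MM →* Function.End X :=
  liftM (fX U) (fX_rel U hU)

/-- The action of words. -/
def act (U : ℕ → X → X) : List Ltr → X → X
  | [], ξ => ξ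
  | x :: u, ξ => fX U x (act U u ξ)

lemma rep_val (U : ℕ → X → X) (hU : ∀ n ξ, U n (U n ξ) = ξ) (u : List Ltr) (ξ : X) :
    rep U hU (val u) ξ = act U u ξ := by
  have h0 : rep U hU (val u) = (u.map (fX U)).prod := liftM_val _ _ u
  rw [h0]
  clear h0
  induction u with
  | nil => rfl
  | cons x u ih =>
    rw [List.map_cons, List.prod_cons]
    change fX U x ((List.map (fX U) u).prod ξ) = _
    rw [ih]
    rfl

/-- The symbolic state of the stack machine (with all `U n` trivial): the created entries, the
increment of the top entry of the rest, and the number of removed entries. -/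
def st : List Ltr → List ℕ × ℕ × ℕ
  | [] => ([], 0, 0)
  | c :: w => (0 :: (st w).1, (st w).2.1, (st w).2.2)
  | a :: w => match (st w).1 with
    | n :: t => ((n + 1) :: t, (st w).2.1, (st w).2.2)
    | [] => ([], (st w).2.1 + 1, (st w).2.2)
  | b :: w => match (st w).1 with
    | _ :: t => (t, (st w).2.1, (st w).2.2)
    | [] => ([], 0, (st w).2.2 + 1)

/-- Increase the top entry. -/
def bump (k : ℕ) (ξ : X) : X := Stream'.cons (ξ.head + k) ξ.tail

/-- trivial family -/
def U0 : ℕ → X → X := fun _ ξ => ξ

lemma act_U0 (w : List Ltr) (ξ : X) :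
    act U0 w ξ = (st w).1 ++ₛ bump (st w).2.1 (Stream'.drop (st w).2.2 ξ) := by
  induction w with
  | nil =>
    simp only [act, st, Stream'.nil_append_stream, Stream'.drop_zero]
    exact (Stream'.eta ξ).symm
  | cons x w ih =>
    cases x with
    | c => 
      rw [act, ih]
      rfl
    | a =>
      rw [act, ih, st]
      rcases h : (st w).1 with _ | ⟨n, t⟩
      · rfl
      · rfl
    | b =>
      rw [act, ih, st]
      rcases h : (st w).1 with _ | ⟨n, t⟩
      · change Stream'.tail (Stream'.drop (st w).2.2 ξ) =
          bump 0 (Stream'.drop ((st w).2.2 + 1) ξ)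
        have h1 : Stream'.tail (Stream'.drop (st w).2.2 ξ) = Stream'.drop ((st w).2.2 + 1) ξ := by
          funext n
          simp only [Stream'.tail, Stream'.drop, Stream'.get]
          congr 1
          omega
        rw [h1]
        exact (Stream'.eta _).symm
      · rfl

/-- A nontrivial involution of `X`: exchange `0` and `1` in the top entry. -/
def tau : X → X := fun ξ => Stream'.cons (Equiv.swap 0 1 ξ.head) ξ.tail

lemma tau_tau (ξ : X) : tau (tau ξ) = ξ := by
  have : tau (tau ξ) = Stream'.cons (Equiv.swap 0 1 (Equiv.swap 0 1 ξ.head)) ξ.tail := rfl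
  rw [this, Equiv.swap_apply_self]
  exact Stream'.eta ξ

/-- The family of involutions which is nontrivial only at `m`. -/
def Um (m : ℕ) : ℕ → X → X := fun n => if n = m then tau else id

lemma Um_Um (m n : ℕ) (ξ : X) : Um m n (Um m n ξ) = ξ := by
  unfold Um
  split_ifs
  · exact tau_tau ξ
  · rfl

lemma act_small (m : ℕ) (w : List Ltr) (hk : (st w).2.1 = 0) (hi : (st w).2.2 = 0)
    (hl : w.length ≤ m) :
    (∀ ξ, act (Um m) w ξ = (st w).1 ++ₛ ξ) ∧ ∀ n ∈ (st w).1, n < w.length := by
  induction w with
  | nil => exact ⟨fun ξ => rfl, by simp [st]⟩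
  | cons x w ih =>
    have hl' : w.length ≤ m := by simp at hl; omega
    cases x with
    | c =>
      obtain ⟨h1, h2⟩ := ih hk hi hl'
      refine ⟨fun ξ => ?_, ?_⟩
      · rw [act, h1]; rfl
      · intro n hn
        rw [st] at hn
        simp only [List.mem_cons] at hn
        rcases hn with rfl | hn
        · simp
        · have := h2 n hn
          simp; omega
    | a =>
      rw [st] at hk hi ⊢
      rcases h : (st w).1 with _ | ⟨n, t⟩
      · rw [h] at hk
        simp at hk
      · rw [h] at hk hi
        obtain ⟨h1, h2⟩ := ih hk hi hl'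
        rw [h] at h1 h2
        refine ⟨fun ξ => ?_, ?_⟩
        · rw [act, h1]; rfl
        · intro j hj
          simp only [List.mem_cons] at hj
          rcases hj with rfl | hj
          · have := h2 n (by simp)
            simp; omega
          · have := h2 j (by simp [hj])
            simp; omega
    | b =>
      rw [st] at hk hi ⊢
      rcases h : (st w).1 with _ | ⟨n, t⟩
      · rw [h] at hi
        simp at hi
      · rw [h] at hk hi
        obtain ⟨h1, h2⟩ := ih hk hi hl'
        rw [h] at h1 h2
        refine ⟨fun ξ => ?_, ?_⟩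
        · rw [act, h1]
          have hn : n ≠ m := by
            have := h2 n (by simp)
            simp at hl
            omega
          change Um m n (t ++ₛ ξ) = t ++ₛ ξ
          rw [Um, if_neg hn]
          rfl
        · intro j hj
          have := h2 j (by simp [hj])
          simp; omega

lemma st_of_bijective (w : List Ltr) (h : Function.Bijective (act U0 w)) :
    st w = ([], 0, 0) := by
  have key := act_U0 w
  rcases hst : st w with ⟨s, k, i⟩
  rw [hst] at key
  simp only at key
  have hi : i = 0 := by
    by_contra hi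
    obtain ⟨j, rfl⟩ := Nat.exists_eq_succ_of_ne_zero hi
    have e : act U0 w (Stream'.cons 1 (Stream'.const 0)) =
        act U0 w (Stream'.cons 0 (Stream'.const 0)) := by
      rw [key, key]
      rfl
    have := h.1 e
    have := congrArg Stream'.head this
    simp at this
  subst hi
  have hs : s = [] := by
    rcases s with _ | ⟨n, t⟩
    · rfl
    · exfalso
      obtain ⟨ξ, hξ⟩ := h.2 (Stream'.cons (n + 1) (Stream'.const 0))
      rw [key] at hξ
      have := congrArg Stream'.head hξ
      simp at this
  subst hs
  have hk : k = 0 := by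
    obtain ⟨ξ, hξ⟩ := h.2 (Stream'.const 0)
    rw [key] at hξ
    have h2 := congrArg Stream'.head hξ
    have h3 : (Stream'.head ([] ++ₛ bump k (Stream'.drop 0 ξ))) = ξ.head + k := rfl
    rw [h3] at h2
    have h4 : Stream'.head (Stream'.const 0) = 0 := rfl
    rw [h4] at h2
    omega
  subst hk
  rfl

lemma bijective_of_isUnit {f : Function.End X} (h : IsUnit f) : Function.Bijective (f : X → X) := by
  obtain ⟨u, rfl⟩ := h
  refine ⟨?_, ?_⟩
  · intro x y hxy
    have h1 : ∀ z : X, (↑u⁻¹ : Function.End X) ((u : Function.End X) z) = z := fun z =>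
      congrFun (u.inv_mul : ((↑u⁻¹ : Function.End X) * (u : Function.End X)) = 1) z
    rw [← h1 x, ← h1 y, hxy]
  · intro y
    exact ⟨(↑u⁻¹ : Function.End X) y,
      congrFun (u.mul_inv : ((u : Function.End X) * (↑u⁻¹ : Function.End X)) = 1) y⟩

lemma rep_unit_eq_one (m : ℕ) (w : List Ltr) (hw : IsUnit (val w)) (hl : w.length ≤ m) :
    rep (Um m) (Um_Um m) (val w) = 1 := by
  have h1 : IsUnit (rep U0 (fun _ _ => rfl) (val w)) := hw.map _
  have h2 := bijective_of_isUnit h1
  have h3 : Function.Bijective (act U0 w) := by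
    have e : (rep U0 (fun _ _ => rfl) (val w) : X → X) = act U0 w := by
      funext ξ
      exact rep_val _ _ _ _
    rw [← e]
    exact h2
  have h4 := st_of_bijective w h3
  obtain ⟨h5, -⟩ := act_small m w (by rw [h4]) (by rw [h4]) hl
  funext ξ
  rw [rep_val, h5, h4]
  rfl

/-- The unit `b aⁿ c`. -/
def uu (n : ℕ) : MMˣ := ⟨val (uw n), val (uw n), val_rel n, val_rel n⟩

theorem not_fg_units : ¬ Group.FG MMˣ := by
  intro h
  rw [Group.fg_iff] at h
  obtain ⟨S, hS, hfin⟩ := h
  choose wd hwd using fun x : MMˣ => exists_val (x : MM)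
  obtain ⟨m, hm⟩ : ∃ m, ∀ x ∈ S, (wd x).length ≤ m := by
    obtain ⟨m, hm⟩ := (hfin.image fun x => (wd x).length).bddAbove
    exact ⟨m, fun x hx => hm (Set.mem_image_of_mem _ hx)⟩
  have hker : ∀ x : MMˣ, x ∈ (Units.map (rep (Um m) (Um_Um m))).ker := by
    have : Subgroup.closure S ≤ (Units.map (rep (Um m) (Um_Um m))).ker := by
      rw [Subgroup.closure_le]
      intro x hx
      rw [SetLike.mem_coe, MonoidHom.mem_ker]
      ext1
      rw [Units.coe_map, ← hwd x]
      exact rep_unit_eq_one m (wd x) (by rw [hwd x]; exact x.isUnit) (hm x hx)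
    intro x
    apply this
    rw [hS]
    trivial
  have h1 := hker (uu m)
  rw [MonoidHom.mem_ker] at h1
  have h2 : rep (Um m) (Um_Um m) (val (uw m)) = 1 := congrArg Units.val h1
  have h3 := congrFun h2 (Stream'.const 0)
  have h4 : rep (Um m) (Um_Um m) (val (uw m)) = fX (Um m) b * fX (Um m) a ^ m * fX (Um m) c := by
    have : rep (Um m) (Um_Um m) (val (uw m)) = ((uw m).map (fX (Um m))).prod := liftM_val _ _ _
    rw [this, prod_uw]
  rw [h4, fX_uw] at h3
  have h5 := congrArg Stream'.head h3
  have h6 : Um m m (Stream'.const 0) = tau (Stream'.const 0) := by simp [Um]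
  rw [h6] at h5
  have h7 : Stream'.head (tau (Stream'.const 0)) = Equiv.swap 0 1 0 := rfl
  rw [h7] at h5
  have h8 : Stream'.head ((1 : Function.End X) (Stream'.const 0)) = 0 := rfl
  rw [h8] at h5
  simp at h5

end Q29.CF
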