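import Pool.Agent.Q29.CF.Monoid

/-!
# Normal forms for `Mon⟨a, b, c | (b aⁿ c)² = 1⟩`
-/

namespace Q29.CF

open Ltr

/-- `aⁿ c b aⁿ c y` -/
def redex (n : ℕ) (y : List Ltr) : List Ltr :=
  List.replicate n a ++ c :: b :: (List.replicate n a ++ c :: y)

lemma rep_inj {n m : ℕ} {r r' : List Ltr}
    (h : List.replicate n a ++ c :: r = List.replicate m a ++ c :: r') : n = m ∧ r = r' := by
  induction n generalizing m with
  | zero =>
    cases m with
    | zero => simpa using h
    | succ m => simp [List.replicate_succ] at h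
  | succ n ih =>
    cases m with
    | zero => simp [List.replicate_succ] at h
    | succ m =>
      simp only [List.replicate_succ, List.cons_append, List.cons.injEq, true_and] at h
      obtain ⟨h1, h2⟩ := ih h
      exact ⟨by rw [h1], h2⟩

lemma redex_inj {n m : ℕ} {y y' : List Ltr} (h : redex n y = redex m y') : n = m ∧ y = y' := by
  obtain ⟨rfl, h2⟩ := rep_inj h
  simp only [List.cons.injEq, true_and] at h2
  obtain ⟨-, h3⟩ := rep_inj h2
  exact ⟨rfl, h3⟩

open Classical in
/-- left multiplication by `b` on normal forms -/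
noncomputable def bAct (w : List Ltr) : List Ltr :=
  if h : ∃ y n, w = redex n y then Classical.choose h else b :: w

lemma bAct_redex (n : ℕ) (y : List Ltr) : bAct (redex n y) = y := by
  have h : ∃ y' m, redex n y = redex m y' := ⟨y, n, rfl⟩
  rw [bAct, dif_pos h]
  obtain ⟨m, hm⟩ := Classical.choose_spec h
  exact (redex_inj hm).2.symm

lemma bAct_of_not {w : List Ltr} (h : ∀ n y, w ≠ redex n y) : bAct w = b :: w := by
  rw [bAct, dif_neg]
  rintro ⟨y, n, hy⟩
  exact h n y hy

/-- Irreducible words. -/
def Irr : List Ltr → Prop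
  | [] => True
  | x :: w => Irr w ∧ (x = b → ∀ n y, w ≠ redex n y)

lemma Irr.of_append {p q : List Ltr} (h : Irr (p ++ q)) : Irr q := by
  induction p with
  | nil => exact h
  | cons x p ih => exact ih h.1

lemma Irr.bAct {w : List Ltr} (h : Irr w) : Irr (bAct w) := by
  by_cases hw : ∃ y n, w = redex n y
  · obtain ⟨y, n, rfl⟩ := hw
    rw [bAct_redex]
    have : redex n y = (List.replicate n a ++ c :: b :: (List.replicate n a ++ [c])) ++ y := by
      simp [redex]
    rw [this] at h
    exact h.of_append
  · have hw' : ∀ n y, w ≠ redex n y := fun n y e => hw ⟨y, n, e⟩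
    rw [bAct_of_not hw']
    exact ⟨h, fun _ => hw'⟩

/-- The set of normal forms. -/
abbrev NF : Type := {w : List Ltr // Irr w}

/-- The action of the generators on normal forms. -/
noncomputable def fN : Ltr → Function.End NF
  | a => fun w => ⟨a :: w.1, w.2, fun h => by cases h⟩
  | b => fun w => ⟨bAct w.1, w.2.bAct⟩
  | c => fun w => ⟨c :: w.1, w.2, fun h => by cases h⟩

lemma fN_a_pow (n : ℕ) (w : NF) :
    (((fN a) ^ n : Function.End NF) w).1 = List.replicate n a ++ w.1 := by
  induction n with
  | zero => rfl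
  | succ n ih =>
    rw [pow_succ']
    change a :: (((fN a) ^ n : Function.End NF) w).1 = _
    rw [ih]
    rfl

lemma fN_uw (n : ℕ) (w : NF) :
    ((fN b * fN a ^ n * fN c : Function.End NF) w).1 = bAct (List.replicate n a ++ c :: w.1) := by
  change bAct (((fN a) ^ n : Function.End NF) ⟨c :: w.1, _⟩).1 = _
  rw [fN_a_pow]

lemma fN_rel (n : ℕ) :
    (fN b * fN a ^ n * fN c) * (fN b * fN a ^ n * fN c) = (1 : Function.End NF) := by
  funext w
  change (fN b * fN a ^ n * fN c : Function.End NF)
    ((fN b * fN a ^ n * fN c : Function.End NF) w) = w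
  apply Subtype.ext
  rw [fN_uw, fN_uw]
  obtain ⟨w, hw⟩ := w
  simp only
  by_cases h : ∃ y, w = b :: (List.replicate n a ++ c :: y)
  · obtain ⟨y, rfl⟩ := h
    have e1 : List.replicate n a ++ c :: b :: (List.replicate n a ++ c :: y) = redex n y := rfl
    rw [e1, bAct_redex, bAct_of_not]
    intro m y' e
    obtain ⟨rfl, h2⟩ := rep_inj e
    subst h2
    exact hw.2 rfl n y' rfl
  · have e1 : bAct (List.replicate n a ++ c :: w) = b :: (List.replicate n a ++ c :: w) := by
      apply bAct_of_not
      intro m y' e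
      obtain ⟨rfl, h2⟩ := rep_inj e
      exact h ⟨y', h2⟩
    rw [e1]
    have e2 : List.replicate n a ++ c :: b :: (List.replicate n a ++ c :: w) = redex n w := rfl
    rw [e2, bAct_redex]

/-- The normal form of a word. -/
noncomputable def nf : List Ltr → List Ltr
  | [] => []
  | a :: u => a :: nf u
  | b :: u => bAct (nf u)
  | c :: u => c :: nf u

lemma nf_eq (u : List Ltr) :
    ((liftM fN fN_rel (val u) : Function.End NF) ⟨[], trivial⟩).1 = nf u := by
  have h0 : liftM fN fN_rel (val u) = (u.map fN).prod := liftM_val _ _ u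
  rw [h0]
  clear h0
  induction u with
  | nil => rfl
  | cons x u ih =>
    rw [List.map_cons, List.prod_cons]
    change ((fN x) ((List.map fN u).prod ⟨[], trivial⟩)).1 = _
    cases x with
    | a => rw [nf, ← ih]; rfl
    | b => rw [nf, ← ih]; rfl
    | c => rw [nf, ← ih]; rfl

lemma nf_eq_of_val_eq {u v : List Ltr} (h : val u = val v) : nf u = nf v := by
  rw [← nf_eq, ← nf_eq, h]

end Q29.CF
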